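import Mathlib

/-!
# MP_ff6f12_co (S12650): the algebraic graph
`(a,b) ~ (c,d)` iff `b + d = a c` over `F_p`: no `C_4`, and large disjoint sets are joined.
-/

set_option autoImplicit false

namespace Pool.Agent.NS.H62

open Finset

variable (p : ℕ)

/-- the relation `b + d = a c` -/
def R (x y : ZMod p × ZMod p) : Prop := x.2 + y.2 = x.1 * y.1

theorem R_symm {x y : ZMod p × ZMod p} (h : R p x y) : R p y x := by
  unfold R at h ⊢
  rw [add_comm, h, mul_comm]

/-- the algebraic graph -/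
def Jp : SimpleGraph (ZMod p × ZMod p) where
  Adj x y := x ≠ y ∧ R p x y
  symm := ⟨fun _ _ h => ⟨h.1.symm, R_symm p h.2⟩⟩
  loopless := ⟨fun _ h => h.1 rfl⟩

variable {p} [Fact p.Prime]

theorem codeg {x y u v : ZMod p × ZMod p} (hxy : x ≠ y) (h1 : R p x u) (h2 : R p y u)
    (h3 : R p x v) (h4 : R p y v) : u = v := by
  unfold R at h1 h2 h3 h4
  have hne : x.1 - y.1 ≠ 0 := by
    intro h0
    have h0' : x.1 = y.1 := sub_eq_zero.mp h0
    apply hxy
    refine Prod.ext h0' ?_
    have e1 : x.2 + u.2 = y.2 + u.2 := by rw [h1, h2, h0']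
    exact add_right_cancel e1
  have e : (x.1 - y.1) * (u.1 - v.1) = 0 := by
    linear_combination h2 - h1 + h3 - h4
  have e1 : u.1 = v.1 := by
    rcases mul_eq_zero.mp e with h | h
    · exact absurd h hne
    · exact sub_eq_zero.mp h
  refine Prod.ext e1 ?_
  have e2 : x.2 + u.2 = x.2 + v.2 := by rw [h1, h3, e1]
  exact add_left_cancel e2

/-- number of the points of `A` in relation with `y` -/
noncomputable def N (A : Finset (ZMod p × ZMod p)) (y : ZMod p × ZMod p) : ℝ := by
  classical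
  exact ∑ x ∈ A, if R p x y then (1 : ℝ) else 0

theorem row (x : ZMod p × ZMod p) : by
    classical
    exact (∑ y : ZMod p × ZMod p, if R p x y then (1 : ℝ) else 0) = p := by
  classical
  rw [Fintype.sum_prod_type]
  have h : ∀ c : ZMod p, (∑ d : ZMod p, if R p x (c, d) then (1 : ℝ) else 0) = 1 := by
    intro c
    rw [Finset.sum_eq_single (x.1 * c - x.2)]
    · rw [if_pos]
      unfold R
      simp
    · intro d _ hd
      rw [if_neg]
      intro hR
      apply hd
      unfold R at hR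
      simp only at hR
      rw [← hR]; ring
    · intro h; exact absurd (Finset.mem_univ _) h
  rw [Finset.sum_congr rfl (fun c _ => h c)]
  simp [ZMod.card]

theorem pair (x x' : ZMod p × ZMod p) (hx : x ≠ x') : by
    classical
    exact (∑ y : ZMod p × ZMod p, (if R p x y then (1 : ℝ) else 0) * (if R p x' y then (1 : ℝ) else 0)) ≤ 1 := by
  classical
  have h : ∀ y : ZMod p × ZMod p, (if R p x y then (1 : ℝ) else 0) * (if R p x' y then (1 : ℝ) else 0)
      = if (R p x y ∧ R p x' y) then (1 : ℝ) else 0 := by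
    intro y
    by_cases h1 : R p x y <;> by_cases h2 : R p x' y <;> simp [h1, h2]
  rw [Finset.sum_congr rfl (fun y _ => h y), ← Finset.sum_filter, Finset.sum_const, nsmul_eq_mul,
    mul_one]
  have hc : (Finset.univ.filter fun y : ZMod p × ZMod p => R p x y ∧ R p x' y).card ≤ 1 := by
    rw [Finset.card_le_one]
    intro a ha b hb
    simp only [Finset.mem_filter, Finset.mem_univ, true_and] at ha hb
    exact codeg hx ha.1 ha.2 hb.1 hb.2
  exact_mod_cast hc

theorem sumN (A : Finset (ZMod p × ZMod p)) : ∑ y, N A y = A.card * p := by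
  classical
  unfold N
  rw [Finset.sum_comm]
  rw [Finset.sum_congr rfl (fun x _ => row x)]
  simp

theorem sumN2 (A : Finset (ZMod p × ZMod p)) :
    ∑ y, N A y ^ 2 ≤ A.card * p + (A.card : ℝ) ^ 2 := by
  classical
  have h1 : ∑ y, N A y ^ 2 = ∑ x ∈ A, ∑ x' ∈ A, ∑ y : ZMod p × ZMod p,
      (if R p x y then (1 : ℝ) else 0) * (if R p x' y then (1 : ℝ) else 0) := by
    have : ∀ y, N A y ^ 2 = ∑ x ∈ A, ∑ x' ∈ A,
        (if R p x y then (1 : ℝ) else 0) * (if R p x' y then (1 : ℝ) else 0) := by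
      intro y
      unfold N
      rw [sq, Finset.sum_mul_sum]
    rw [Finset.sum_congr rfl (fun y _ => this y), Finset.sum_comm]
    refine Finset.sum_congr rfl (fun x _ => ?_)
    rw [Finset.sum_comm]
  rw [h1]
  have h2 : ∀ x ∈ A, (∑ x' ∈ A, ∑ y : ZMod p × ZMod p,
      (if R p x y then (1 : ℝ) else 0) * (if R p x' y then (1 : ℝ) else 0)) ≤ p + A.card := by
    intro x hx
    rw [← Finset.add_sum_erase A _ hx]
    refine add_le_add ?_ ?_
    · have : ∀ y : ZMod p × ZMod p, (if R p x y then (1 : ℝ) else 0) * (if R p x y then (1 : ℝ) else 0)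
          = if R p x y then (1 : ℝ) else 0 := by
        intro y
        by_cases h : R p x y <;> simp [h]
      rw [Finset.sum_congr rfl (fun y _ => this y)]
      exact le_of_eq (row x)
    · calc (∑ x' ∈ A.erase x, ∑ y : ZMod p × ZMod p,
            (if R p x y then (1 : ℝ) else 0) * (if R p x' y then (1 : ℝ) else 0))
          ≤ ∑ x' ∈ A.erase x, (1 : ℝ) :=
            Finset.sum_le_sum fun x' hx' => pair x x' (Finset.ne_of_mem_erase hx').symm
        _ = ((A.erase x).card : ℝ) := by simp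
        _ ≤ A.card := by
            exact_mod_cast Finset.card_le_card (Finset.erase_subset _ _)
  calc _ ≤ ∑ x ∈ A, ((p : ℝ) + A.card) := Finset.sum_le_sum h2
    _ = A.card * p + (A.card : ℝ) ^ 2 := by
        rw [Finset.sum_const, nsmul_eq_mul]; ring

theorem variance (A : Finset (ZMod p × ZMod p)) :
    ∑ y, (N A y - A.card / p) ^ 2 ≤ A.card * p := by
  have hp : (0 : ℝ) < p := by exact_mod_cast (Fact.out : p.Prime).pos
  have h1 : ∑ y : ZMod p × ZMod p, (N A y - A.card / p) ^ 2
      = ∑ y, N A y ^ 2 - 2 * (A.card / p) * ∑ y, N A y + (p * p : ℝ) * (A.card / p) ^ 2 := by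
    have : ∀ y, (N A y - A.card / p) ^ 2
        = N A y ^ 2 - 2 * (A.card / p) * N A y + (A.card / p : ℝ) ^ 2 := by
      intro y; ring
    rw [Finset.sum_congr rfl (fun y _ => this y), Finset.sum_add_distrib, Finset.sum_sub_distrib,
      ← Finset.mul_sum]
    congr 1
    rw [Finset.sum_const, nsmul_eq_mul, Finset.card_univ, Fintype.card_prod, ZMod.card]
    push_cast
    ring
  rw [h1, sumN]
  have h2 := sumN2 A
  have h3 : (p * p : ℝ) * (A.card / p) ^ 2 = (A.card : ℝ) ^ 2 := by
    field_simp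
  have h4 : 2 * ((A.card : ℝ) / p) * (A.card * p) = 2 * (A.card : ℝ) ^ 2 := by
    field_simp
  rw [h3, h4]
  linarith

theorem edge (A B : Finset (ZMod p × ZMod p)) (h : p ^ 3 < A.card * B.card) :
    ∃ a ∈ A, ∃ b ∈ B, R p a b := by
  classical
  by_contra hcon
  push Not at hcon
  have hp : (0 : ℝ) < p := by exact_mod_cast (Fact.out : p.Prime).pos
  have hN : ∀ y ∈ B, N A y = 0 := by
    intro y hy
    unfold N
    refine Finset.sum_eq_zero (fun x hx => ?_)
    rw [if_neg (hcon x hx y hy)]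
  have h1 : ∑ y ∈ B, (N A y - A.card / p) ^ 2 ≤ A.card * p :=
    le_trans (Finset.sum_le_univ_sum_of_nonneg (fun y => sq_nonneg _)) (variance A)
  rw [Finset.sum_congr rfl (fun y hy => by rw [hN y hy]), Finset.sum_const, nsmul_eq_mul] at h1
  have hApos : 0 < A.card := by
    rcases Nat.eq_zero_or_pos A.card with h0 | h0
    · rw [h0] at h; simp at h
    · exact h0
  have hA : (0 : ℝ) < A.card := by exact_mod_cast hApos
  have h2 : (p : ℝ) ^ 3 < A.card * B.card := by exact_mod_cast h
  have h3 : (B.card : ℝ) * (0 - A.card / p) ^ 2 = B.card * (A.card : ℝ) ^ 2 / p ^ 2 := by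
    field_simp
    ring
  rw [h3, div_le_iff₀ (by positivity)] at h1
  have h4 : (A.card : ℝ) * (A.card * B.card) ≤ A.card * p ^ 3 := by nlinarith
  have h5 := le_of_mul_le_mul_left h4 hA
  linarith

/-- The graph on `F_p^2`. -/
theorem jgraph (p : ℕ) [Fact p.Prime] :
    (∀ x y u v : ZMod p × ZMod p, x ≠ y → (Jp p).Adj x u → (Jp p).Adj y u → (Jp p).Adj x v →
      (Jp p).Adj y v → u = v) ∧
    ∀ A B : Finset (ZMod p × ZMod p), Disjoint A B → p ^ 3 < A.card * B.card →
      ∃ a ∈ A, ∃ b ∈ B, (Jp p).Adj a b := by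
  refine ⟨fun x y u v hxy h1 h2 h3 h4 => codeg hxy h1.2 h2.2 h3.2 h4.2, ?_⟩
  intro A B hAB h
  obtain ⟨a, ha, b, hb, hR⟩ := edge A B h
  exact ⟨a, ha, b, hb, fun e => (Finset.disjoint_left.mp hAB ha) (e ▸ hb), hR⟩

/-- **(J)**: on every finite set `W` with at most `p^2` elements there is a graph without two
vertices with two common neighbours such that any two disjoint subsets `A`, `B` of `W` with
`p^3 < |A| |B|` are joined by an edge. -/
theorem jset {V : Type*} (W : Finset V) (p : ℕ) (hp : p.Prime) (hW : W.card ≤ p ^ 2) :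
    ∃ J : SimpleGraph V, (∀ x y, J.Adj x y → x ∈ W ∧ y ∈ W) ∧
      (∀ x y u v : V, x ≠ y → J.Adj x u → J.Adj y u → J.Adj x v → J.Adj y v → u = v) ∧
      ∀ A B : Finset V, A ⊆ W → B ⊆ W → Disjoint A B → p ^ 3 < A.card * B.card →
        ∃ a ∈ A, ∃ b ∈ B, J.Adj a b := by
  classical
  have : Fact p.Prime := ⟨hp⟩
  have hcard : W.card ≤ Fintype.card (ZMod p × ZMod p) := by
    rw [Fintype.card_prod, ZMod.card]
    calc W.card ≤ p ^ 2 := hW
      _ = p * p := by ring
  obtain ⟨f, hf⟩ : ∃ f : W → ZMod p × ZMod p, Function.Injective f := by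
    have h : Fintype.card W ≤ Fintype.card (ZMod p × ZMod p) := by
      rw [Fintype.card_coe]; exact hcard
    obtain ⟨e⟩ := Function.Embedding.nonempty_of_card_le h
    exact ⟨e, e.injective⟩
  obtain ⟨hJ1, hJ2⟩ := jgraph p
  refine ⟨{ Adj := fun x y => ∃ (hx : x ∈ W) (hy : y ∈ W), (Jp p).Adj (f ⟨x, hx⟩) (f ⟨y, hy⟩)
            symm := ⟨fun x y ⟨hx, hy, h⟩ => ⟨hy, hx, h.symm⟩⟩
            loopless := ⟨fun x ⟨hx, hy, h⟩ => h.ne rfl⟩ }, ?_, ?_, ?_⟩
  · rintro x y ⟨hx, hy, _⟩
    exact ⟨hx, hy⟩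
  · rintro x y u v hxy ⟨hx, hu, h1⟩ ⟨hy, hu', h2⟩ ⟨hx', hv, h3⟩ ⟨hy', hv', h4⟩
    have hne : f ⟨x, hx⟩ ≠ f ⟨y, hy⟩ := fun e => hxy (congrArg Subtype.val (hf e))
    have := hJ1 _ _ _ _ hne h1 h2 h3 h4
    exact congrArg Subtype.val (hf this)
  · intro A B hA hB hAB h
    let g : ∀ S : Finset V, S ⊆ W → Finset (ZMod p × ZMod p) := fun S hS =>
      S.attach.image fun x => f ⟨x.1, hS x.2⟩
    have hg : ∀ (S : Finset V) (hS : S ⊆ W), (g S hS).card = S.card := by
      intro S hS
      rw [Finset.card_image_of_injective, Finset.card_attach]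
      intro x y hxy
      have := congrArg Subtype.val (hf hxy)
      exact Subtype.ext this
    have hdis : Disjoint (g A hA) (g B hB) := by
      rw [Finset.disjoint_left]
      intro z hz hz'
      simp only [g, Finset.mem_image, Finset.mem_attach, true_and, Subtype.exists] at hz hz'
      obtain ⟨x, hx, rfl⟩ := hz
      obtain ⟨y, hy, e⟩ := hz'
      have := congrArg Subtype.val (hf e)
      simp only at this
      subst this
      exact (Finset.disjoint_left.mp hAB hx) hy
    obtain ⟨a, ha, b, hb, hadj⟩ := hJ2 (g A hA) (g B hB) hdis (by rw [hg, hg]; exact h)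
    simp only [g, Finset.mem_image, Finset.mem_attach, true_and, Subtype.exists] at ha hb
    obtain ⟨x, hx, rfl⟩ := ha
    obtain ⟨y, hy, rfl⟩ := hb
    exact ⟨x, hx, y, hy, hA hx, hB hy, hadj⟩

end Pool.Agent.NS.H62
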